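import Pool.Agent.H27.JtL

/-! Congruences modulo 192 for partitions with distinct even parts. -/

namespace Pool.Agent.Results.MP_fab899_nt.Full
open Finset PowerSeries Pool.Agent.H27.Jt

set_option maxHeartbeats 400000

/-- The number of partitions of `n` in which each even part occurs at most once. -/
def ped (n : ℕ) : ℕ := #{p : n.Partition | ∀ i ∈ p.parts, Even i → p.parts.count i ≤ 1}

section gf
open scoped PowerSeries.WithPiTopology
variable {S : Type} [CommRing S]

def fe (S : Type) [CommRing S] (i c : ℕ) : S := if Even i then (if c = 1 then 1 else 0) else 1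

theorem coeff_fe (n : ℕ) : coeff n (Nat.Partition.genFun (fe S)) = ped n := by
  rw [Nat.Partition.coeff_genFun, ped, card_eq_sum_ones]
  push_cast
  rw [sum_filter]
  refine sum_congr rfl fun p _ => ?_
  simp only [Finsupp.prod, Multiset.toFinsupp_support, Multiset.toFinsupp_apply]
  split_ifs with h
  · refine prod_eq_one fun i hi => ?_
    have h1 := Multiset.mem_toFinset.mp hi
    have h2 := Multiset.one_le_count_iff_mem.mpr h1
    unfold fe
    split_ifs with h3 h4
    · rfl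
    · exact absurd (le_antisymm (h i h1 h3) h2) h4
    · rfl
  · push Not at h
    obtain ⟨i, hi, h1, h2⟩ := h
    exact prod_eq_zero (Multiset.mem_toFinset.mpr hi) (by rw [fe, if_pos h1, if_neg h2.ne'])

theorem gfe (S : Type) [CommRing S] (n : ℕ) : ∃ L, n < L + 1 ∧ ∃ G : S⟦X⟧, coeff n G = ped n ∧
    X ^ (L + 1) ∣ G * O S (L + 1) - Ep S (L + 1) := by
  letI : TopologicalSpace S := ⊥
  haveI : DiscreteTopology S := ⟨rfl⟩
  set F : ℕ → S⟦X⟧ := fun i => 1 + ∑' j, fe S (i + 1) (j + 1) • X ^ ((i + 1) * (j + 1)) with hF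
  have h := (Nat.Partition.hasProd_genFun (fe S)).tendsto_prod_nat
  rw [WithPiTopology.tendsto_iff_coeff_tendsto] at h
  simp only [nhds_discrete, Filter.tendsto_pure] at h
  obtain ⟨N, hN⟩ := Filter.eventually_atTop.mp (h n)
  have o : ∀ i, F (2 * i + 1) = 1 + X ^ (2 * i + 2) := fun i => by
    have : Even (2 * i + 1 + 1) := ⟨i + 1, by ring⟩
    simp only [hF]
    rw [tsum_eq_single 0 fun j hj => by simp [fe, hj, this]]
    simp [fe, this]
  have e : ∀ i, F (2 * i) * (1 - X ^ (2 * i + 1)) = 1 := fun i => by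
    have h0 : constantCoeff (X ^ (2 * i + 1) : S⟦X⟧) = 0 := by simp
    refine Eq.trans ?_ (WithPiTopology.tsum_pow_mul_one_sub_of_constantCoeff_eq_zero h0)
    rw [(WithPiTopology.summable_pow_of_constantCoeff_eq_zero h0).tsum_eq_zero_add, pow_zero]
    simp only [hF]
    congr 3
    ext1 j
    rw [fe, if_neg (by simp), one_smul, ← pow_mul]
  have p : ∀ L, (∏ i ∈ range (2 * L), F i) * O S L = Ep S L := fun L => by
    induction L with
    | zero => simp [O, Ep]
    | succ L ih =>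
      rw [Nat.mul_succ, prod_range_succ, prod_range_succ, o]
      simp only [O, Ep, prod_range_succ] at ih ⊢
      rw [← ih]
      linear_combination (∏ i ∈ range (2 * L), F i) * (∏ i ∈ range L, (1 - X ^ (2 * i + 1))) *
        (1 + X ^ (2 * L + 2)) * e L
  refine ⟨n + N, by omega, ∏ i ∈ range (2 * (n + N + 1)), F i, ?_, by rw [p, sub_self]; exact dvd_zero _⟩
  rw [← coeff_fe]
  exact hN _ (by omega)

end gf

theorem d3 {n : ℕ} (h9 : n % 9 = 7) : 3 ∣ ped n := by
  obtain ⟨L, hL, G, h1, h2⟩ := gfe (ZMod 3) n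
  rw [← ZMod.natCast_eq_zero_iff, ← h1]
  refine m3 hL h9 ?_
  have e : ∀ M, Ep (ZMod 3) M * P (X ^ 2) M = P (X ^ 4) M := fun M => by
    induction M with
    | zero => simp [P, Ep]
    | succ M ih =>
      rw [P_succ, P_succ, ← ih]
      simp only [Ep, prod_range_succ]
      ring
  rw [P_split, ← e, ← mul_assoc, ← sub_mul]
  exact h2.mul_right _

theorem d64 {n : ℕ} (n1 : ∀ x y : ℤ, x * x + y * y ≠ 8 * n + 1)
    (n2 : ∀ x y : ℤ, x * x + 2 * (y * y) ≠ 8 * n + 1) : 64 ∣ ped n := by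
  obtain ⟨L, hL, G, h1, h2⟩ := gfe (ZMod 256) n
  have h := map_dvd (rescale (-1 : ZMod 256)) h2
  rw [map_pow, rescale_X, mul_pow, map_sub, map_mul] at h
  have h3 := m64 hL (G := rescale (-1) G) (by
    convert (dvd_mul_left _ _).trans h using 3
    · simp only [O, Op, map_prod, map_add, map_one, map_pow, rescale_X, map_neg,
        neg_mul, one_mul, (odd_two_mul_add_one _).neg_pow, sub_eq_add_neg, neg_neg]
    · simp only [Ep, map_prod, map_add, map_one, map_pow, rescale_X, map_neg, neg_mul, one_mul]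
      exact prod_congr rfl fun i _ => by rw [Even.neg_pow ⟨i + 1, by ring⟩]) n1 n2
  rw [coeff_rescale, h1] at h3
  have h4 : ((4 * ((8 * n + 1) * ped n) : ℕ) : ZMod 256) = 0 := by
    push_cast
    rcases neg_one_pow_eq_or (ZMod 256) n with h | h <;> rw [h] at h3
    · linear_combination h3
    · linear_combination -h3
  rw [ZMod.natCast_eq_zero_iff] at h4
  refine Nat.Coprime.dvd_of_dvd_mul_left (m := 8 * n + 1) ?_ (Nat.dvd_of_mul_dvd_mul_left (by omega : 0 < 4) h4)
  exact Nat.Coprime.pow_left 6 (Nat.coprime_two_left.mpr ⟨4 * n, by ring⟩)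

theorem desc {p : ℕ} [Fact p.Prime] (hl : legendreSym p (-2) = -1) {w : ℤ} (hw : ¬(p : ℤ) ∣ w) (s : ℕ) :
    s ≠ 0 → ∀ x y : ℤ, x * x + 2 * (y * y) ≠ p * (s * s * w) := by
  have hp : Prime (p : ℤ) := Nat.prime_iff_prime_int.mp Fact.out
  induction s using Nat.strong_induction_on with
  | _ s ih =>
    intro hs x y h
    have hy : (p : ℤ) ∣ y := by
      rw [← ZMod.intCast_zmod_eq_zero_iff_dvd]
      by_contra hy
      refine (legendreSym.eq_neg_one_iff p).mp hl ⟨x / y, ?_⟩
      have := congrArg (Int.cast : ℤ → ZMod p) h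
      push_cast at this ⊢
      rw [ZMod.natCast_self] at this
      field_simp
      linear_combination -this
    obtain ⟨y, rfl⟩ := hy
    obtain ⟨x, rfl⟩ : (p : ℤ) ∣ x := hp.dvd_of_dvd_pow (n := 2) ⟨s * s * w - 2 * p * y * y, by linear_combination h⟩
    have h1 : (p : ℤ) ∣ s ^ 2 * w := ⟨x * x + 2 * (y * y), mul_left_cancel₀ hp.ne_zero (by linear_combination -h)⟩
    obtain ⟨r, rfl⟩ : p ∣ s := Int.natCast_dvd_natCast.mp (hp.dvd_of_dvd_pow ((hp.dvd_or_dvd h1).resolve_right hw))
    have hr : r ≠ 0 := by rintro rfl; simp at hs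
    refine ih r (lt_mul_left (by omega) (Fact.out : p.Prime).one_lt) hr x y
      (mul_left_cancel₀ (mul_ne_zero hp.ne_zero hp.ne_zero) ?_)
    push_cast at h
    linear_combination h

theorem result (p : ℕ) [Fact p.Prime] (h5 : 5 ≤ p) (hl : legendreSym p (-2) = -1) (t : ℕ) (ht : 0 < t)
    (h6 : Nat.Coprime t 6) (hpt : p ∣ t) (n j : ℕ) (h1 : 1 ≤ j) (h2 : j ≤ p - 1) :
    192 ∣ ped (9 * t ^ 2 * n + 9 * t ^ 2 * j / p + (57 * t ^ 2 - 1) / 8) := by
  have hp : p.Prime := Fact.out
  have t2 : ¬2 ∣ t := fun h => absurd (Nat.Coprime.coprime_dvd_left h h6) (by decide)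
  have t3 : ¬3 ∣ t := fun h => absurd (Nat.Coprime.coprime_dvd_left h h6) (by decide)
  obtain ⟨c, hc⟩ : ∃ c, t ^ 2 = 24 * c + 1 := ⟨t ^ 2 / 24, by
    have : t ^ 2 % 24 = 1 := by
      have := Nat.mod_lt t (by omega : 0 < 24)
      rw [Nat.pow_mod]
      generalize hr : t % 24 = r at *
      interval_cases r <;> first | rfl | omega
    omega⟩
  obtain ⟨s, rfl⟩ := hpt
  rw [show 9 * (p * s) ^ 2 * j = p * (9 * (p * s * s * j)) by ring, Nat.mul_div_cancel_left _ hp.pos,
    show (57 * (p * s) ^ 2 - 1) / 8 = 171 * c + 7 by omega]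
  have e : 8 * ((9 * (p * s) ^ 2 * n + 9 * (p * s * s * j) + (171 * c + 7) : ℕ) : ℤ) + 1 =
      p * (s * s * (3 * (24 * j + p * (24 * n + 19)))) := by
    have := congrArg (Nat.cast : ℕ → ℤ) hc
    push_cast at this ⊢
    linear_combination -57 * this
  have h9 : (9 * (p * s) ^ 2 * n + 9 * (p * s * s * j) + (171 * c + 7)) % 9 = 7 := by rw [mul_assoc]; omega
  generalize 9 * (p * s) ^ 2 * n + 9 * (p * s * s * j) + (171 * c + 7) = N at *
  refine Nat.Coprime.mul_dvd_of_dvd_of_dvd (by decide : Nat.Coprime 64 3) (d64 (fun x y h => ?_) ?_) (d3 h9)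
  · have hx := (sqz x).2
    have hy := (sqz y).2
    obtain ⟨a, rfl⟩ : ∃ a, x = 3 * a := ⟨x / 3, by omega⟩
    obtain ⟨b, rfl⟩ : ∃ b, y = 3 * b := ⟨y / 3, by omega⟩
    have : 9 * (a * a + b * b) = 8 * (N : ℤ) + 1 := by linear_combination h
    omega
  · rw [e]
    refine desc hl (fun h => ?_) s (by rintro rfl; simp at ht)
    have h3 : p ∣ 72 * j := by
      have h4 : (p : ℤ) ∣ 3 * (24 * j + p * (24 * n + 19)) - p * (3 * (24 * n + 19)) := h.sub (dvd_mul_right _ _)
      exact_mod_cast (show (3 * (24 * j + p * (24 * n + 19)) - p * (3 * (24 * n + 19)) : ℤ) = 72 * j by ring) ▸ h4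
    rcases hp.dvd_mul.mp h3 with h4 | h4
    · have := Nat.le_of_dvd (by omega) (hp.dvd_of_dvd_pow (show p ∣ 6 ^ 3 from h4.trans (by decide)))
      have h7 := hp.dvd_of_dvd_pow (show p ∣ 6 ^ 3 from h4.trans (by decide))
      interval_cases p
      · omega
      · exact absurd hp (by decide)
    · have := Nat.le_of_dvd h1 h4
      omega

end Pool.Agent.Results.MP_fab899_nt.Full
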